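import Mathlib

/-!
# Field topologies given by a filter, universe polymorphic copy

Copy of the blocks EC-Defs, C1, C2, C3, C5 of helper59 (proofs: helper94, helper68, helper30,
helper43) with `Type*` in place of `Type`.
-/

set_option autoImplicit false

namespace Pool.Agent.Helper11.ETC

/-- A Hausdorff non discrete ring topology on the field `E`, given by the filter `N` of
neighbourhoods of zero. -/
@[ext] structure FTop (E : Type*) [Field E] where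
  N : Filter E
  zero_mem : ∀ U ∈ N, (0 : E) ∈ U
  sub : ∀ U ∈ N, ∃ W ∈ N, ∀ a ∈ W, ∀ b ∈ W, a - b ∈ U
  mul : ∀ U ∈ N, ∃ W ∈ N, ∀ a ∈ W, ∀ b ∈ W, a * b ∈ U
  smul : ∀ c : E, ∀ U ∈ N, ∃ W ∈ N, ∀ a ∈ W, c * a ∈ U
  sep : ∀ x : E, x ≠ 0 → ∃ U ∈ N, x ∉ U
  nd : ∀ U ∈ N, ∃ y ∈ U, y ≠ 0

namespace FTop
variable {E : Type*} [Field E]

/-- the topology is a V-topology. -/
def IsV (τ : FTop E) : Prop := ∀ U ∈ τ.N, ∃ W ∈ τ.N, ∀ x y : E, x * y ∈ W → x ∈ U ∨ y ∈ U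

/-- bounded sets. -/
def Bdd (τ : FTop E) (S : Set E) : Prop := ∀ U ∈ τ.N, ∃ c : E, c ≠ 0 ∧ ∀ x ∈ S, c * x ∈ U

/-- topologically nilpotent elements. -/
def TN (τ : FTop E) (x : E) : Prop := ∀ U ∈ τ.N, ∃ n₀ : ℕ, ∀ n ≥ n₀, x ^ n ∈ U

/-- power bounded elements. -/
def PB (τ : FTop E) (x : E) : Prop := τ.Bdd (Set.range fun n : ℕ => x ^ n)

/-- `K₀` is an open subgroup. -/
def OpenSub (τ : FTop E) (K₀ : Subgroup Eˣ) : Prop :=
  ∃ U ∈ τ.N, ∀ u ∈ U, ∃ k ∈ K₀, (k : E) = 1 + u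

end FTop

/-- `O` has rank one. -/
def RankOne {E : Type*} [Field E] (O : ValuationSubring E) : Prop :=
  O ≠ ⊤ ∧ ∀ x ∈ O.nonunits, ∀ y : E, y ≠ 0 → ∃ n : ℕ, x ^ n / y ∈ O


namespace FTop

variable {E : Type*} [Field E] {τ : FTop E}

theorem neg {U : Set E} (hU : U ∈ τ.N) : ∃ W ∈ τ.N, ∀ a ∈ W, -a ∈ U := by
  obtain ⟨W, hW, h⟩ := τ.sub U hU
  refine ⟨W, hW, fun a ha => ?_⟩
  have := h 0 (τ.zero_mem W hW) a ha
  rwa [zero_sub] at this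

theorem add {U : Set E} (hU : U ∈ τ.N) : ∃ W ∈ τ.N, ∀ a ∈ W, ∀ b ∈ W, a + b ∈ U := by
  obtain ⟨W, hW, h⟩ := τ.sub U hU
  obtain ⟨W', hW', h'⟩ := neg hW
  refine ⟨W ∩ W', Filter.inter_mem hW hW', fun a ha b hb => ?_⟩
  have := h a ha.1 (-b) (h' b hb.2)
  rwa [sub_neg_eq_add] at this

theorem preimage_mul {U : Set E} (hU : U ∈ τ.N) (c : E) : {a | c * a ∈ U} ∈ τ.N := by
  obtain ⟨W, hW, h⟩ := τ.smul c U hU
  exact Filter.mem_of_superset hW h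

theorem infinite (τ : FTop E) : Infinite E := by
  classical
  by_contra hfin
  rw [not_infinite_iff_finite] at hfin
  choose! U hU hx using τ.sep
  have h1 : (⋂ x : E, (if x = 0 then Set.univ else U x)) ∈ τ.N := by
    rw [Filter.iInter_mem]
    intro x
    by_cases h : x = 0
    · rw [if_pos h]; exact Filter.univ_mem
    · rw [if_neg h]; exact hU x h
  obtain ⟨y, hy, hy0⟩ := τ.nd _ h1
  have := Set.mem_iInter.1 hy y
  rw [if_neg hy0] at this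
  exact hx y hy0 this

theorem Bdd.mul_mem {S : Set E} (h : τ.Bdd S) {U : Set E} (hU : U ∈ τ.N) :
    ∃ W ∈ τ.N, ∀ a ∈ S, ∀ b ∈ W, a * b ∈ U := by
  obtain ⟨W₁, hW₁, h1⟩ := τ.mul U hU
  obtain ⟨c, hc, h2⟩ := h W₁ hW₁
  refine ⟨{b | c⁻¹ * b ∈ W₁}, preimage_mul hW₁ _, fun a ha b hb => ?_⟩
  have := h1 _ (h2 a ha) _ hb
  have e : a * b = c * a * (c⁻¹ * b) := by field_simp
  rw [e]
  exact this

theorem bdd_iff {S : Set E} : τ.Bdd S ↔ ∀ U ∈ τ.N, ∃ W ∈ τ.N, ∀ a ∈ S, ∀ b ∈ W, a * b ∈ U := by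
  constructor
  · intro h U hU
    exact h.mul_mem hU
  · intro h U hU
    obtain ⟨W, hW, h1⟩ := h U hU
    obtain ⟨c, hc, hc0⟩ := τ.nd W hW
    refine ⟨c, hc0, fun x hx => ?_⟩
    rw [mul_comm]
    exact h1 x hx c hc

theorem Bdd.mono {S T : Set E} (h : τ.Bdd T) (hST : S ⊆ T) : τ.Bdd S := by
  intro U hU
  obtain ⟨c, hc, h1⟩ := h U hU
  exact ⟨c, hc, fun x hx => h1 x (hST hx)⟩

theorem Bdd.image_mul {S : Set E} (h : τ.Bdd S) (c : E) : τ.Bdd ((fun x => c * x) '' S) := by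
  rw [bdd_iff] at h ⊢
  intro U hU
  obtain ⟨W, hW, h1⟩ := h U hU
  refine ⟨{b | c * b ∈ W}, preimage_mul hW c, ?_⟩
  rintro _ ⟨x, hx, rfl⟩ b hb
  have e : c * x * b = x * (c * b) := by ring
  show c * x * b ∈ U
  rw [e]
  exact h1 x hx _ hb

theorem Bdd.add {S T : Set E} (h : τ.Bdd S) (h' : τ.Bdd T) :
    τ.Bdd {x | ∃ a ∈ S, ∃ b ∈ T, x = a + b} := by
  rw [bdd_iff] at h h' ⊢
  intro U hU
  obtain ⟨W, hW, h0⟩ := FTop.add hU
  obtain ⟨W₁, hW₁, h1⟩ := h W hW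
  obtain ⟨W₂, hW₂, h2⟩ := h' W hW
  refine ⟨W₁ ∩ W₂, Filter.inter_mem hW₁ hW₂, ?_⟩
  rintro _ ⟨a, ha, b, hb, rfl⟩ w hw
  rw [add_mul]
  exact h0 _ (h1 a ha w hw.1) _ (h2 b hb w hw.2)

theorem Bdd.mul {S T : Set E} (h : τ.Bdd S) (h' : τ.Bdd T) :
    τ.Bdd {x | ∃ a ∈ S, ∃ b ∈ T, x = a * b} := by
  rw [bdd_iff] at h h' ⊢
  intro U hU
  obtain ⟨W₁, hW₁, h1⟩ := h U hU
  obtain ⟨W₂, hW₂, h2⟩ := h' W₁ hW₁
  refine ⟨W₂, hW₂, ?_⟩
  rintro _ ⟨a, ha, b, hb, rfl⟩ w hw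
  rw [mul_assoc]
  exact h1 a ha _ (h2 b hb w hw)

theorem Bdd.union {S T : Set E} (h : τ.Bdd S) (h' : τ.Bdd T) : τ.Bdd (S ∪ T) := by
  rw [bdd_iff] at h h' ⊢
  intro U hU
  obtain ⟨W₁, hW₁, h1⟩ := h U hU
  obtain ⟨W₂, hW₂, h2⟩ := h' U hU
  refine ⟨W₁ ∩ W₂, Filter.inter_mem hW₁ hW₂, ?_⟩
  rintro a (ha | ha) b hb
  · exact h1 a ha b hb.1
  · exact h2 a ha b hb.2

theorem bdd_finite {S : Set E} (h : S.Finite) : τ.Bdd S := by
  induction S, h using Set.Finite.induction_on with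
  | empty => exact fun U _ => ⟨1, one_ne_zero, fun x hx => absurd hx (Set.notMem_empty x)⟩
  | @insert a S _ _ ih =>
    rw [Set.insert_eq]
    refine Bdd.union ?_ ih
    rw [bdd_iff]
    intro U hU
    refine ⟨{b | a * b ∈ U}, preimage_mul hU a, ?_⟩
    intro x hx b hb
    rw [Set.mem_singleton_iff] at hx
    subst hx
    exact hb

theorem not_bdd_univ : ¬ τ.Bdd Set.univ := by
  intro h
  obtain ⟨U, hU, h1⟩ := τ.sep 1 one_ne_zero
  obtain ⟨c, hc, h2⟩ := h U hU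
  apply h1
  have := h2 c⁻¹ (Set.mem_univ _)
  rwa [mul_inv_cancel₀ hc] at this

/-- elements whose inverse is not in `U`. -/
def far (U : Set E) : Set E := {x | x = 0 ∨ x⁻¹ ∉ U}

theorem bdd_far (hV : τ.IsV) {U : Set E} (hU : U ∈ τ.N) : τ.Bdd (far U) := by
  intro W hW
  obtain ⟨W', hW', h⟩ := hV (U ∩ W) (Filter.inter_mem hU hW)
  obtain ⟨c, hc, hc0⟩ := τ.nd W' hW'
  refine ⟨c, hc0, fun x hx => ?_⟩
  by_cases hx0 : x = 0
  · rw [hx0, mul_zero]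
    exact τ.zero_mem W hW
  · have hx1 : x⁻¹ ∉ U := hx.resolve_left hx0
    rcases h (c * x) x⁻¹ (by rwa [mul_assoc, mul_inv_cancel₀ hx0, mul_one]) with h1 | h1
    · exact h1.2
    · exact absurd h1.1 hx1

/-- a good bounded neighbourhood: `U U ⊆ U = -U`, `U + U ⊆ d U`. -/
theorem exists_ball (hV : τ.IsV) : ∃ U ∈ τ.N, τ.Bdd U ∧ (∀ a ∈ U, ∀ b ∈ U, a * b ∈ U) ∧
    (∀ a ∈ U, -a ∈ U) ∧ ∃ d : E, d ≠ 0 ∧ ∀ a ∈ U, ∀ b ∈ U, ∃ c ∈ U, a + b = d * c := by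
  obtain ⟨U₁, hU₁, h1⟩ := τ.sep 1 one_ne_zero
  obtain ⟨W₁, hW₁, hW₁m⟩ := τ.mul U₁ hU₁
  set S : Set E := W₁ ∩ {a | (-1) * a ∈ W₁} with hS
  have hSN : S ∈ τ.N := Filter.inter_mem hW₁ (preimage_mul hW₁ (-1))
  have hSneg : ∀ a ∈ S, -a ∈ S := by
    rintro a ⟨ha1, ha2⟩
    refine ⟨by simpa using ha2, ?_⟩
    simpa using ha1
  have hSfar : S ⊆ far S := by
    intro a ha
    by_cases ha0 : a = 0
    · exact Or.inl ha0
    · refine Or.inr fun hinv => h1 ?_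
      have := hW₁m a ha.1 a⁻¹ hinv.1
      rwa [mul_inv_cancel₀ ha0] at this
  have hSb : τ.Bdd S := (bdd_far hV hSN).mono hSfar
  obtain ⟨c, hc0, hc⟩ := hSb.mul hSb S hSN
  have hc' : ∀ a ∈ S, ∀ b ∈ S, c * (a * b) ∈ S := fun a ha b hb => hc _ ⟨a, ha, b, hb, rfl⟩
  set U : Set E := {x | c⁻¹ * x ∈ S} with hU
  have hUN : U ∈ τ.N := preimage_mul hSN c⁻¹
  have hUb : τ.Bdd U := by
    refine (hSb.image_mul c).mono ?_
    intro x hx
    exact ⟨c⁻¹ * x, hx, by simp [hc0]⟩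
  refine ⟨U, hUN, hUb, ?_, ?_, ?_⟩
  · intro a ha b hb
    have := hc' _ ha _ hb
    have e : c⁻¹ * (a * b) = c * (c⁻¹ * a * (c⁻¹ * b)) := by field_simp
    rw [hU, Set.mem_ofPred_eq, e]
    exact this
  · intro a ha
    rw [hU, Set.mem_ofPred_eq, mul_neg]
    exact hSneg _ ha
  · obtain ⟨c₀, hc₀, h⟩ := hUb.add hUb U hUN
    refine ⟨c₀⁻¹, inv_ne_zero hc₀, fun a ha b hb => ⟨c₀ * (a + b), h _ ⟨a, ha, b, hb, rfl⟩, ?_⟩⟩
    rw [← mul_assoc, inv_mul_cancel₀ hc₀, one_mul]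

/-- inversion is continuous at 1. -/
theorem inv_one_add (hV : τ.IsV) {U : Set E} (hU : U ∈ τ.N) :
    ∃ W ∈ τ.N, ∀ u ∈ W, 1 + u ≠ 0 ∧ (1 + u)⁻¹ - 1 ∈ U := by
  obtain ⟨U₁, hU₁, h1⟩ := τ.sep 1 one_ne_zero
  obtain ⟨W₁, hW₁, hW₁s⟩ := τ.sub U₁ hU₁
  obtain ⟨W₃, hW₃, hW₃m⟩ := (bdd_far hV hW₁).mul_mem hU
  refine ⟨W₁ ∩ {u | (-1) * u ∈ W₃}, Filter.inter_mem hW₁ (preimage_mul hW₃ (-1)), ?_⟩
  rintro u ⟨hu1, hu2⟩
  have hn : 1 + u ∉ W₁ := by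
    intro h
    have := hW₁s _ h _ hu1
    rw [add_sub_cancel_right] at this
    exact h1 this
  have h0 : 1 + u ≠ 0 := by
    intro h
    exact hn (h ▸ τ.zero_mem W₁ hW₁)
  refine ⟨h0, ?_⟩
  have hfar : (1 + u)⁻¹ ∈ far W₁ := Or.inr (by rwa [inv_inv])
  have := hW₃m _ hfar _ hu2
  have e : (1 + u)⁻¹ - 1 = (1 + u)⁻¹ * (-1 * u) := by
    field_simp
    ring
  rw [e]
  exact this

theorem tn_inv_of_not_pb (hV : τ.IsV) {x : E} (h : ¬ τ.PB x) : x ≠ 0 ∧ τ.TN x⁻¹ := by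
  have hx : x ≠ 0 := by
    rintro rfl
    apply h
    refine bdd_finite (Set.Finite.subset (Set.toFinite ({0, 1} : Set E)) ?_)
    rintro _ ⟨n, rfl⟩
    rcases Nat.eq_zero_or_pos n with rfl | hn
    · simp
    · simp [hn.ne']
  refine ⟨hx, ?_⟩
  have key : ∀ W ∈ τ.N, ∃ n : ℕ, x⁻¹ ^ n ∈ W := by
    intro W hW
    by_contra hcon
    push Not at hcon
    apply h
    refine Bdd.mono (bdd_far hV hW) ?_
    rintro _ ⟨n, rfl⟩
    right
    have := hcon n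
    rwa [inv_pow] at this
  obtain ⟨U, hU, hUb, hUU, -, -⟩ := exists_ball (τ := τ) hV
  obtain ⟨U', hU', h1⟩ := τ.sep 1 one_ne_zero
  obtain ⟨n₁, hn₁⟩ := key (U ∩ U') (Filter.inter_mem hU hU')
  have hn0 : n₁ ≠ 0 := by
    rintro rfl
    exact h1 (by simpa using hn₁.2)
  have hpow : ∀ q : ℕ, (x⁻¹ ^ n₁) ^ q ∈ U ∪ {1} := by
    intro q
    induction q with
    | zero => right; simp
    | succ q ih =>
      left
      rcases ih with ih | ih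
      · rw [pow_succ]; exact hUU _ ih _ hn₁.1
      · rw [pow_succ, Set.mem_singleton_iff.1 ih, one_mul]; exact hn₁.1
  have hpb : τ.PB x⁻¹ := by
    refine Bdd.mono (Bdd.mul (Bdd.union hUb (bdd_finite (Set.finite_singleton 1)))
      (bdd_finite (Set.Finite.image (fun r : ℕ => x⁻¹ ^ r) (Set.finite_Iio n₁)))) ?_
    rintro _ ⟨m, rfl⟩
    refine ⟨(x⁻¹ ^ n₁) ^ (m / n₁), hpow _, x⁻¹ ^ (m % n₁),
      ⟨m % n₁, Nat.mod_lt _ (Nat.pos_of_ne_zero hn0), rfl⟩, ?_⟩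
    rw [← pow_mul, ← pow_add]
    show x⁻¹ ^ m = _
    rw [Nat.div_add_mod]
  intro W hW
  obtain ⟨W', hW', hm⟩ := Bdd.mul_mem hpb hW
  obtain ⟨n', hn'⟩ := key W' hW'
  refine ⟨n', fun n hn => ?_⟩
  have := hm _ ⟨n - n', rfl⟩ _ hn'
  simp only at this
  rwa [← pow_add, Nat.sub_add_cancel hn] at this

theorem not_pb_of_tn_inv {x : E} (hx : x ≠ 0) (h : τ.TN x⁻¹) : ¬ τ.PB x := by
  intro hpb
  obtain ⟨U, hU, h1⟩ := τ.sep 1 one_ne_zero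
  obtain ⟨W, hW, hm⟩ := Bdd.mul_mem hpb hU
  obtain ⟨n₀, hn₀⟩ := h W hW
  have := hm _ ⟨n₀, rfl⟩ _ (hn₀ n₀ le_rfl)
  simp only at this
  rw [← mul_pow, mul_inv_cancel₀ hx, one_pow] at this
  exact h1 this

theorem PB.mul {x y : E} (hx : τ.PB x) (hy : τ.PB y) : τ.PB (x * y) := by
  refine Bdd.mono (Bdd.mul hx hy) ?_
  rintro _ ⟨n, rfl⟩
  exact ⟨x ^ n, ⟨n, rfl⟩, y ^ n, ⟨n, rfl⟩, mul_pow _ _ _⟩

theorem PB.neg {x : E} (hx : τ.PB x) : τ.PB (-x) := by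
  have h1 : τ.PB (-1) := by
    refine bdd_finite (Set.Finite.subset (Set.toFinite ({1, -1} : Set E)) ?_)
    rintro _ ⟨n, rfl⟩
    rcases neg_one_pow_eq_or E n with h | h <;> simp [h]
  have := PB.mul h1 hx
  rwa [neg_one_mul] at this

theorem TN.mul {x y : E} (hx : τ.TN x) (hy : τ.PB y) : τ.TN (x * y) := by
  intro U hU
  obtain ⟨W, hW, hm⟩ := Bdd.mul_mem hy hU
  obtain ⟨n₀, hn₀⟩ := hx W hW
  refine ⟨n₀, fun n hn => ?_⟩
  rw [mul_pow, mul_comm]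
  exact hm _ ⟨n, rfl⟩ _ (hn₀ n hn)

private theorem pb_of_mem_ball {U : Set E} (hUb : τ.Bdd U) (hUU : ∀ a ∈ U, ∀ b ∈ U, a * b ∈ U)
    {u : E} (hu : u ∈ U) : τ.PB u := by
  refine Bdd.mono (Bdd.union hUb (bdd_finite (Set.finite_singleton 1))) ?_
  rintro _ ⟨n, rfl⟩
  show u ^ n ∈ _
  induction n with
  | zero => right; simp
  | succ q ih =>
    left
    rcases ih with ih | ih
    · rw [pow_succ]; exact hUU _ ih _ hu
    · rw [pow_succ, Set.mem_singleton_iff.1 ih, one_mul]; exact hu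

private theorem exists_tn_nbh (hV : τ.IsV) {t : E} (ht : t ≠ 0) (hn : τ.TN t) :
    ∃ W ∈ τ.N, ∀ x ∈ W, τ.TN x := by
  obtain ⟨U, hU, hUb, hUU, -, -⟩ := exists_ball (τ := τ) hV
  refine ⟨{x | t⁻¹ * x ∈ U}, preimage_mul hU _, fun x hx => ?_⟩
  have := TN.mul hn (pb_of_mem_ball hUb hUU hx)
  rwa [mul_inv_cancel_left₀ ht] at this

/-- if there is a topologically nilpotent element, the power bounded elements are bounded. -/
theorem bdd_pb (hV : τ.IsV) {t : E} (ht : t ≠ 0) (hn : τ.TN t) : τ.Bdd {x | τ.PB x} := by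
  obtain ⟨W, hW, hWt⟩ := exists_tn_nbh hV ht hn
  refine Bdd.mono (bdd_far hV hW) ?_
  intro x hx
  by_cases hx0 : x = 0
  · exact Or.inl hx0
  · refine Or.inr fun hmem => ?_
    exact not_pb_of_tn_inv hx0 (hWt _ hmem) hx

/-- the topologically nilpotent elements form a neighbourhood of 0, if there is one `t ≠ 0`. -/
theorem tn_mem (hV : τ.IsV) {t : E} (ht : t ≠ 0) (hn : τ.TN t) : {x | τ.TN x} ∈ τ.N := by
  obtain ⟨W, hW, hWt⟩ := exists_tn_nbh hV ht hn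
  exact Filter.mem_of_superset hW hWt

private theorem exists_two_pow (a b : ℕ) : ∃ k₀ : ℕ, ∀ k ≥ k₀, a * k + b ≤ 2 ^ k := by
  have h1 : ∀ j : ℕ, j + 1 ≤ 2 ^ j := fun j => Nat.lt_two_pow_self
  have h2 : a * (4 * (a + b + 1)) + b ≤ 2 ^ (4 * (a + b + 1)) := by
    have h3 := h1 (a + b + 1)
    have h4 : (a + b + 2) ^ 4 ≤ (2 ^ (a + b + 1)) ^ 4 := Nat.pow_le_pow_left h3 4
    rw [← pow_mul, mul_comm (a + b + 1) 4] at h4
    refine le_trans ?_ h4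
    have h5 : 4 ≤ (a + b + 2) ^ 2 := by nlinarith
    have h6 : a * (a + b + 1) + b ≤ (a + b + 2) ^ 2 := by nlinarith
    calc a * (4 * (a + b + 1)) + b ≤ 4 * (a * (a + b + 1) + b) := by nlinarith
      _ ≤ (a + b + 2) ^ 2 * (a + b + 2) ^ 2 := Nat.mul_le_mul h5 h6
      _ = (a + b + 2) ^ 4 := by ring
  refine ⟨4 * (a + b + 1), fun k hk => ?_⟩
  induction k, hk using Nat.le_induction with
  | base => exact h2
  | succ k hk ih =>
    have h7 : a ≤ 2 ^ k := le_trans (by nlinarith) (h1 k)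
    calc a * (k + 1) + b = (a * k + b) + a := by ring
      _ ≤ 2 ^ k + 2 ^ k := Nat.add_le_add ih h7
      _ = 2 ^ (k + 1) := by ring

/-- exponential beats polynomial growth. -/
theorem exp_small (hV : τ.IsV) {s : E} (d : E) (hs : τ.TN s) {S : Set E} (hS : τ.Bdd S) (m : ℕ)
    {W : Set E} (hW : W ∈ τ.N) : ∃ k₀ : ℕ, ∀ k ≥ k₀, ∀ g ∈ S, s ^ (2 ^ k - m) * d ^ k * g ∈ W := by
  obtain ⟨W', hW', hm⟩ := Bdd.mul_mem hS hW
  obtain ⟨U, hU, hUb, hUU, -, -⟩ := exists_ball (τ := τ) hV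
  obtain ⟨W'', hW'', hm'⟩ := Bdd.mul_mem hUb hW'
  obtain ⟨n, hn⟩ := hs _ (preimage_mul hU d)
  obtain ⟨n₀, hn₀⟩ := hs _ hW''
  obtain ⟨k₀, hk₀⟩ := exists_two_pow n (n₀ + m)
  refine ⟨k₀ + 1, fun k hk g hg => ?_⟩
  have h1 := hk₀ k (by omega)
  have hpow : ∀ q : ℕ, (d * s ^ n) ^ (q + 1) ∈ U := by
    intro q
    induction q with
    | zero => simpa using hn n le_rfl
    | succ q ih => rw [pow_succ]; exact hUU _ ih _ (hn n le_rfl)
  have h2 : (d * s ^ n) ^ k ∈ U := by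
    obtain ⟨q, rfl⟩ : ∃ q, k = q + 1 := ⟨k - 1, by omega⟩
    exact hpow q
  have h3 : s ^ (2 ^ k - m - n * k) ∈ W'' := hn₀ _ (by omega)
  have h4 := hm _ hg _ (hm' _ h2 _ h3)
  have h5 : s ^ (2 ^ k - m) * d ^ k * g = g * ((d * s ^ n) ^ k * s ^ (2 ^ k - m - n * k)) := by
    have h6 : s ^ (2 ^ k - m) = (s ^ n) ^ k * s ^ (2 ^ k - m - n * k) := by
      rw [← pow_mul, ← pow_add]
      congr 1
      omega
    rw [h6, mul_pow]
    ring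
  rw [h5]
  exact h4

/-- sums of at most `2^k` elements of a ball `U`. -/
theorem sum_mem_ball {U : Set E} (h0 : (0 : E) ∈ U) {d : E} (hd : ∀ a ∈ U, ∀ b ∈ U, ∃ c ∈ U, a + b = d * c)
    (k : ℕ) (n : ℕ) (hn : n ≤ 2 ^ k) (f : ℕ → E) (hf : ∀ i < n, f i ∈ U) :
    ∃ c ∈ U, ∑ i ∈ Finset.range n, f i = d ^ k * c := by
  induction k generalizing n f with
  | zero =>
    have : n = 0 ∨ n = 1 := by simp at hn; omega
    rcases this with rfl | rfl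
    · exact ⟨0, h0, by simp⟩
    · exact ⟨f 0, hf 0 (by norm_num), by simp⟩
  | succ k ih =>
    rw [pow_succ] at hn
    obtain ⟨n₁, n₂, h1, h2, rfl⟩ : ∃ n₁ n₂ : ℕ, n₁ ≤ 2 ^ k ∧ n₂ ≤ 2 ^ k ∧ n = n₁ + n₂ :=
      ⟨min n (2 ^ k), n - min n (2 ^ k), min_le_right _ _, by omega, by omega⟩
    obtain ⟨c₁, hc₁, e₁⟩ := ih n₁ h1 f (fun i hi => hf i (by omega))
    obtain ⟨c₂, hc₂, e₂⟩ := ih n₂ h2 (fun i => f (n₁ + i)) (fun i hi => hf _ (by omega))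
    obtain ⟨c, hc, e⟩ := hd c₁ hc₁ c₂ hc₂
    refine ⟨c, hc, ?_⟩
    rw [Finset.sum_range_add, e₁, e₂, ← mul_add, e]
    ring

theorem TN.pb (hV : τ.IsV) {x : E} (hx : τ.TN x) : τ.PB x := by
  obtain ⟨U, hU, hUb, -⟩ := exists_ball hV
  obtain ⟨n₀, hn₀⟩ := hx U hU
  have hfin : τ.Bdd ((fun n : ℕ => x ^ n) '' (Finset.range n₀ : Set ℕ)) :=
    bdd_finite ((Finset.finite_toSet _).image _)
  refine (hUb.union hfin).mono ?_
  rintro _ ⟨n, rfl⟩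
  by_cases h : n₀ ≤ n
  · exact Or.inl (hn₀ n h)
  · right
    refine ⟨n, ?_, rfl⟩
    simpa using h

private theorem pb_one : τ.PB (1 : E) := by
  refine (bdd_finite (Set.finite_singleton (1 : E))).mono ?_
  rintro _ ⟨n, rfl⟩
  simp

private theorem pb_zero : τ.PB (0 : E) := by
  refine (bdd_finite ((Set.finite_singleton (1 : E)).insert 0)).mono ?_
  rintro _ ⟨n, rfl⟩
  cases n with
  | zero => simp
  | succ n => simp

private theorem pb_pow {x : E} (hx : τ.PB x) (m : ℕ) : τ.PB (x ^ m) := by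
  refine Bdd.mono hx ?_
  rintro _ ⟨n, rfl⟩
  exact ⟨m * n, pow_mul x m n⟩

private theorem pb_add (hV : τ.IsV) {t : E} (ht : t ≠ 0) (hn : τ.TN t)
    (hZ : τ.Bdd (Set.range fun n : ℤ => (n : E))) {x y : E} (hx : τ.PB x) (hy : τ.PB y) :
    τ.PB (x + y) := by
  by_contra hz
  obtain ⟨hz0, hs⟩ := tn_inv_of_not_pb hV hz
  obtain ⟨U, hU, hUb, -, -, d, hd0, hd⟩ := exists_ball hV
  have hP := bdd_pb hV ht hn
  obtain ⟨c, hc0, hc⟩ := (hZ.mul hP) U hU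
  have hS : τ.Bdd ((fun u => c⁻¹ * u) '' U) := hUb.image_mul c⁻¹
  obtain ⟨W, hW, h1W⟩ := τ.sep 1 one_ne_zero
  obtain ⟨k, hk⟩ := exp_small hV d hs hS 1 hW
  have hk' := hk k le_rfl
  have hsum : ∑ i ∈ Finset.range (2 ^ k),
      c * (x ^ i * y ^ (2 ^ k - 1 - i) * ((2 ^ k - 1).choose i : E)) =
      c * (x + y) ^ (2 ^ k - 1) := by
    rw [add_pow, ← Finset.mul_sum, Nat.sub_add_cancel (Nat.one_le_two_pow)]
  obtain ⟨c', hc', hcc⟩ := sum_mem_ball (τ.zero_mem U hU) hd k (2 ^ k) le_rfl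
    (fun i => c * (x ^ i * y ^ (2 ^ k - 1 - i) * ((2 ^ k - 1).choose i : E))) (fun i _ => by
      apply hc
      refine ⟨(((2 ^ k - 1).choose i : ℤ) : E), ⟨_, rfl⟩, x ^ i * y ^ (2 ^ k - 1 - i),
        (pb_pow hx _).mul (pb_pow hy _), ?_⟩
      push_cast
      ring)
  rw [hsum] at hcc
  have h1 := hk' (c⁻¹ * c') ⟨c', hc', rfl⟩
  apply h1W
  have e : ((x + y)⁻¹) ^ (2 ^ k - 1) * d ^ k * (c⁻¹ * c') = 1 := by
    have e1 : d ^ k * (c⁻¹ * c') = (x + y) ^ (2 ^ k - 1) := by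
      have : d ^ k * (c⁻¹ * c') = c⁻¹ * (d ^ k * c') := by ring
      rw [this, ← hcc, ← mul_assoc, inv_mul_cancel₀ hc0, one_mul]
    rw [mul_assoc, e1, inv_pow, inv_mul_cancel₀ (pow_ne_zero _ hz0)]
  rwa [e] at h1

theorem exists_rankOne (hV : τ.IsV) {t : E} (ht : t ≠ 0) (hn : τ.TN t)
    (hZ : τ.Bdd (Set.range fun n : ℤ => (n : E))) :
    ∃ O : ValuationSubring E, (∀ x, x ∈ O ↔ τ.PB x) ∧ RankOne O ∧ (O : Set E) ∈ τ.N ∧
      τ.Bdd (O : Set E) := by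
  let O : ValuationSubring E :=
    { carrier := {x | τ.PB x}
      mul_mem' := fun {x y} hx hy => PB.mul hx hy
      one_mem' := pb_one
      add_mem' := fun {x y} hx hy => pb_add hV ht hn hZ hx hy
      zero_mem' := pb_zero
      neg_mem' := fun {x} hx => PB.neg hx
      mem_or_inv_mem' := fun x => by
        by_cases h : τ.PB x
        · exact Or.inl h
        · exact Or.inr ((tn_inv_of_not_pb hV h).2.pb hV) }
  have hmem : ∀ x, x ∈ O ↔ τ.PB x := fun x => Iff.rfl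
  have hON : (O : Set E) ∈ τ.N :=
    Filter.mem_of_superset (tn_mem hV ht hn) fun x hx => TN.pb hV hx
  refine ⟨O, hmem, ⟨?_, ?_⟩, hON, (bdd_pb hV ht hn).mono fun x hx => hx⟩
  · intro htop
    have h1 : t⁻¹ ∈ O := by rw [htop]; exact ValuationSubring.mem_top _
    exact not_pb_of_tn_inv (inv_ne_zero ht) (by rwa [inv_inv]) ((hmem _).1 h1)
  · intro x hx y hy
    have hTN : τ.TN x := by
      by_cases hx0 : x = 0
      · subst hx0
        intro U hU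
        refine ⟨1, fun n hn => ?_⟩
        rw [zero_pow (by omega)]
        exact τ.zero_mem U hU
      · have h1 : ¬ τ.PB x⁻¹ := by
          intro h2
          rw [ValuationSubring.mem_nonunits_iff] at hx
          have h3 : O.valuation x⁻¹ ≤ 1 := (O.valuation_le_one_iff _).2 h2
          have h4 : O.valuation x * O.valuation x⁻¹ = 1 := by
            rw [← map_mul, mul_inv_cancel₀ hx0, map_one]
          have h5 : O.valuation x * O.valuation x⁻¹ < 1 := by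
            calc O.valuation x * O.valuation x⁻¹ ≤ O.valuation x * 1 := by gcongr
              _ = O.valuation x := mul_one _
              _ < 1 := hx
          exact absurd h4 h5.ne
        have h6 := (tn_inv_of_not_pb hV h1).2
        rwa [inv_inv] at h6
    obtain ⟨n, hn'⟩ := hTN _ (preimage_mul hON y⁻¹)
    refine ⟨n, ?_⟩
    have h7 : y⁻¹ * x ^ n ∈ O := hn' n le_rfl
    rw [div_eq_mul_inv, mul_comm]
    exact h7

end FTop
end Pool.Agent.Helper11.ETC
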