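import Pool.Agent.Helper37.ETC.Defs
import Pool.Agent.Helper11.ETC.FTopU

/-!
# Block ETC-KD4 (MP_600e55_nt)

A V-topology with a nonzero topologically nilpotent element in which `2` is power bounded is the
topology of a valuation ring. The case of bounded integers is `exists_rankOne` (helper43, block
EC-C5 of helper59); here: if `2` is power bounded then all integers are power bounded (binary
expansion of `n ^ (2 ^ k)`).

Proof: helper11 (with helper43, helper30, helper68, helper94).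
-/

set_option autoImplicit false

namespace Pool.Agent.Helper11.ETC

open Pool.Helper37.ETC

/-- The field topology of a V-neighbourhood filter. -/
def toFTop {F : Type*} [Field F] {𝒩 : Filter F} (h : VNhd 𝒩) : FTop F where
  N := 𝒩
  zero_mem := h.zero_mem
  sub U hU := by
    obtain ⟨W, hW, hadd⟩ := h.add U hU
    refine ⟨W ∩ {x | (-1) * x ∈ W}, Filter.inter_mem hW (h.smul W hW (-1)), fun a ha b hb => ?_⟩
    have := hadd a ha.1 _ hb.2
    rwa [neg_one_mul, ← sub_eq_add_neg] at this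
  mul := h.mul
  smul c U hU := ⟨{x | c * x ∈ U}, h.smul U hU c, fun a ha => ha⟩
  sep x hx := by
    obtain ⟨U, hU, h1⟩ := h.proper
    refine ⟨{y | x⁻¹ * y ∈ U}, h.smul U hU _, fun hmem => h1 ?_⟩
    have : x⁻¹ * x ∈ U := hmem
    rwa [inv_mul_cancel₀ hx] at this
  nd := h.nondisc

theorem toFTop_isV {F : Type*} [Field F] {𝒩 : Filter F} (h : VNhd 𝒩) : (toFTop h).IsV :=
  h.vprop

theorem toFTop_bdd {F : Type*} [Field F] {𝒩 : Filter F} (h : VNhd 𝒩) {S : Set F} :
    (toFTop h).Bdd S ↔ Bd 𝒩 S := FTop.bdd_iff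

theorem toFTop_tn {F : Type*} [Field F] {𝒩 : Filter F} (h : VNhd 𝒩) {x : F} :
    (toFTop h).TN x ↔ TNil 𝒩 x := Iff.rfl

theorem toFTop_pb {F : Type*} [Field F] {𝒩 : Filter F} (h : VNhd 𝒩) {x : F} :
    (toFTop h).PB x ↔ PBd 𝒩 x := toFTop_bdd h

namespace FTop

variable {E : Type*} [Field E] {τ : FTop E}

/-- Binary expansions with coefficients in a set. -/
private theorem exists_binary {U : Set E} {c : E} (h0 : (0 : E) ∈ U)
    (h2 : ∀ i : ℕ, c * (2 : E) ^ i ∈ U) :
    ∀ (M N : ℕ), N < 2 ^ M →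
      ∃ f : ℕ → E, (∀ i, c * f i ∈ U) ∧ ∑ i ∈ Finset.range M, f i = (N : E) := by
  intro M
  induction M with
  | zero =>
    intro N hN
    have : N = 0 := by simpa using hN
    subst this
    exact ⟨fun _ => 0, fun i => by simpa using h0, by simp⟩
  | succ M ih =>
    intro N hN
    by_cases hlt : N < 2 ^ M
    · obtain ⟨f, hf, hs⟩ := ih N hlt
      refine ⟨fun i => if i = M then 0 else f i, fun i => ?_, ?_⟩
      · by_cases hi : i = M
        · simpa [hi] using h0
        · simpa [hi] using hf i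
      · rw [Finset.sum_range_succ, ← hs]
        simp only [if_true, add_zero]
        refine Finset.sum_congr rfl fun i hi => ?_
        rw [if_neg (Finset.mem_range.1 hi).ne]
    · push Not at hlt
      have hlt' : N - 2 ^ M < 2 ^ M := by rw [pow_succ] at hN; omega
      obtain ⟨f, hf, hs⟩ := ih _ hlt'
      refine ⟨fun i => if i = M then 2 ^ M else f i, fun i => ?_, ?_⟩
      · by_cases hi : i = M
        · simpa [hi] using h2 M
        · simpa [hi] using hf i
      · rw [Finset.sum_range_succ]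
        simp only [if_true]
        have e : ∑ i ∈ Finset.range M, (if i = M then (2 : E) ^ M else f i) =
            ∑ i ∈ Finset.range M, f i := by
          refine Finset.sum_congr rfl fun i hi => ?_
          rw [if_neg (Finset.mem_range.1 hi).ne]
        rw [e, hs, Nat.cast_sub hlt]
        push_cast
        ring

/-- If `2` is power bounded, so are all natural numbers. -/
theorem nat_pb (hV : τ.IsV) {t : E} (ht : t ≠ 0) (hn : τ.TN t) (h2 : τ.PB (2 : E)) (n : ℕ) :
    τ.PB (n : E) := by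
  by_contra hcon
  obtain ⟨hn0, hs⟩ := tn_inv_of_not_pb hV hcon
  obtain ⟨U, hU, hUb, -, -, d, hd0, hd⟩ := exists_ball hV
  have hP := bdd_pb hV ht hn
  obtain ⟨c, hc0, hc⟩ := hP U hU
  have hc2 : ∀ i : ℕ, c * (2 : E) ^ i ∈ U := fun i => by
    apply hc
    refine Bdd.mono h2 ?_
    rintro _ ⟨m, rfl⟩
    exact ⟨i * m, pow_mul _ _ _⟩
  have hS : τ.Bdd ((fun u => d ^ n * c⁻¹ * u) '' U) := hUb.image_mul _
  obtain ⟨W, hW, h1W⟩ := τ.sep 1 one_ne_zero
  obtain ⟨k, hk⟩ := exp_small hV d hs hS 0 hW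
  have hk' := hk k le_rfl
  have hlt : n ^ (2 ^ k) < 2 ^ (n * 2 ^ k) := by
    rw [pow_mul]
    exact Nat.pow_lt_pow_left Nat.lt_two_pow_self (pow_ne_zero _ two_ne_zero)
  obtain ⟨f, hf, hsum⟩ := exists_binary (τ.zero_mem U hU) hc2 _ _ hlt
  have hle : n * 2 ^ k ≤ 2 ^ (n + k) := by
    rw [pow_add]
    exact Nat.mul_le_mul_right _ Nat.lt_two_pow_self.le
  obtain ⟨c', hc', hcc⟩ := sum_mem_ball (τ.zero_mem U hU) hd (n + k) (n * 2 ^ k) hle
    (fun i => c * f i) (fun i _ => hf i)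
  rw [← Finset.mul_sum, hsum] at hcc
  have h1 := hk' (d ^ n * c⁻¹ * c') ⟨c', hc', rfl⟩
  apply h1W
  have e : ((n : E))⁻¹ ^ (2 ^ k - 0) * d ^ k * (d ^ n * c⁻¹ * c') = 1 := by
    have e1 : d ^ k * (d ^ n * c⁻¹ * c') = (n : E) ^ (2 ^ k) := by
      have : d ^ k * (d ^ n * c⁻¹ * c') = c⁻¹ * (d ^ (n + k) * c') := by ring
      rw [this, ← hcc, ← mul_assoc, inv_mul_cancel₀ hc0, one_mul]
      push_cast
      rfl
    rw [mul_assoc, e1, Nat.sub_zero, inv_pow, inv_mul_cancel₀ (pow_ne_zero _ hn0)]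
  rwa [e] at h1

/-- If `2` is power bounded, the integers are bounded. -/
theorem int_bdd (hV : τ.IsV) {t : E} (ht : t ≠ 0) (hn : τ.TN t) (h2 : τ.PB (2 : E)) :
    τ.Bdd (Set.range fun n : ℤ => (n : E)) := by
  refine (bdd_pb hV ht hn).mono ?_
  rintro _ ⟨n, rfl⟩
  rcases Int.natAbs_eq n with h | h
  · rw [h]
    have := nat_pb hV ht hn h2 n.natAbs
    simpa using this
  · rw [h]
    have := PB.neg (nat_pb hV ht hn h2 n.natAbs)
    simpa using this

end FTop

end Pool.Agent.Helper11.ETC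

namespace Pool.Helper37.ETC

variable {F : Type*} [Field F]

/-- KD4 -/
theorem VNhd.kd4 {𝒩 : Filter F} (h : VNhd 𝒩) {π : F} (hπ : π ≠ 0) (h0 : TNil 𝒩 π)
    (h2 : PBd 𝒩 (2 : F)) :
    ∃ O : ValuationSubring F, O ≠ ⊤ ∧ ∀ U ∈ 𝒩, ∃ c : F, c ≠ 0 ∧ ∀ x ∈ O, c * x ∈ U := by
  have hV := Pool.Agent.Helper11.ETC.toFTop_isV h
  have hZ := Pool.Agent.Helper11.ETC.FTop.int_bdd (τ := Pool.Agent.Helper11.ETC.toFTop h) hV hπ h0
    ((Pool.Agent.Helper11.ETC.toFTop_pb h).2 h2)
  obtain ⟨O, -, hO, -, hOb⟩ :=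
    Pool.Agent.Helper11.ETC.FTop.exists_rankOne (τ := Pool.Agent.Helper11.ETC.toFTop h) hV hπ h0 hZ
  exact ⟨O, hO.1, hOb⟩

end Pool.Helper37.ETC
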